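import Pool.Agent.BER.Stmts

/-!
# Squad BER (MP_be01ff_an), row CRI: the critical point
-/

set_option autoImplicit false

namespace Pool.Agent.BER.H94

open Set Filter Topology MeasureTheory
open scoped InnerProductSpace ENNReal
open Pool.Agent.BE01 Pool.Agent.BEL Pool.Agent.BEF Pool.Agent.BEN Pool.Agent.BEH Pool.Agent.BEG

noncomputable section

section aux

variable {X H : Type} [NormedCommRing X] [NormedAlgebra ℝ X]
  [NormedAddCommGroup H] [InnerProductSpace ℝ H]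

/-- The functional. -/
def cPhi (W : Wx X H) (p : ℕ) (x : X) : ℝ := ⟪W.e (x ^ (2 * p + 1)), W.e x⟫_ℝ

theorem cPhi_cont (W : Wx X H) (p : ℕ) : Continuous (cPhi W p) := by
  unfold cPhi
  exact (W.e.continuous.comp (continuous_pow _)).inner W.e.continuous

theorem cPhi_smul (W : Wx X H) (p : ℕ) (c : ℝ) (x : X) :
    cPhi W p (c • x) = c ^ (2 * p + 2) * cPhi W p x := by
  unfold cPhi
  rw [smul_pow, map_smul, map_smul, real_inner_smul_left, real_inner_smul_right]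
  ring

theorem cPhi_deriv (W : Wx X H) (p : ℕ) (hM : Msy W) (χ y : X) :
    HasDerivAt (fun t : ℝ => cPhi W p (χ + t • y))
      ((2 * (p : ℝ) + 2) * ⟪W.e (χ ^ (2 * p + 1)), W.e y⟫_ℝ) 0 := by
  have h1 : HasDerivAt (fun t : ℝ => χ + t • y) y 0 := by
    have := ((hasDerivAt_id (0 : ℝ)).smul_const y).const_add χ
    simpa using this
  have h2 := h1.pow (2 * p + 1)
  have h3 := W.e.hasFDerivAt.comp_hasDerivAt (0 : ℝ) h2
  have h4 := W.e.hasFDerivAt.comp_hasDerivAt (0 : ℝ) h1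
  have h5 := h3.inner ℝ h4
  have e0 : χ + (0 : ℝ) • y = χ := by rw [zero_smul, add_zero]
  have e1 : ⟪W.e (χ ^ (2 * p) * y), W.e χ⟫_ℝ = ⟪W.e (χ ^ (2 * p + 1)), W.e y⟫_ℝ := by
    rw [hM (χ ^ (2 * p)) y χ, ← pow_succ, real_inner_comm]
  refine HasDerivAt.congr_deriv h5 ?_
  simp only [Function.comp_apply, Pi.pow_apply, e0, Nat.add_sub_cancel]
  have e2 : ((2 * p + 1 : ℕ) : X) * χ ^ (2 * p) * y =
      ((2 * p + 1 : ℕ) : ℝ) • (χ ^ (2 * p) * y) := by
    rw [Nat.cast_smul_eq_nsmul, nsmul_eq_mul, mul_assoc]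
  rw [e2, map_smul, real_inner_smul_left, e1]
  push_cast
  ring

theorem eSum_inner {ι : Type} [Fintype ι] (W : Wx X H) (φ : ι → X)
    (ho : Orthonormal ℝ (fun i => W.e (φ i))) (z w : ι → ℝ) :
    ⟪W.e (∑ i, z i • φ i), W.e (∑ i, w i • φ i)⟫_ℝ = ∑ i, z i * w i := by
  simp only [map_sum, map_smul]
  rw [ho.inner_sum]
  simp

end aux

theorem cri : CriStmt := by
  intro X H _ _ _ _ W p ω m φ hp hF hM hpos hm hm3
  have ho := hF.on 1
  let x : EuclideanSpace ℝ (Fin (m 1)) → X := fun z => ∑ i, z i • φ 1 i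
  have hx : Continuous x := by
    apply continuous_finset_sum
    intro i _
    exact (EuclideanSpace.proj (𝕜 := ℝ) i).continuous.smul continuous_const
  have hxadd : ∀ (z w : EuclideanSpace ℝ (Fin (m 1))) (t : ℝ), x (z + t • w) = x z + t • x w := by
    intro z w t
    simp only [x, PiLp.add_apply, PiLp.smul_apply, smul_eq_mul, add_smul, mul_smul,
      Finset.sum_add_distrib, Finset.smul_sum]
  have hxsm : ∀ (w : EuclideanSpace ℝ (Fin (m 1))) (t : ℝ), x (t • w) = t • x w := by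
    intro w t
    simp only [x, PiLp.smul_apply, smul_eq_mul, mul_smul, Finset.smul_sum]
  have hin : ∀ z w : EuclideanSpace ℝ (Fin (m 1)), ⟪W.e (x z), W.e (x w)⟫_ℝ = ∑ i, z i * w i :=
    fun z w => eSum_inner W (φ 1) ho z w
  have hnn : ∀ z : EuclideanSpace ℝ (Fin (m 1)), ⟪W.e (x z), W.e (x z)⟫_ℝ = ‖z‖ ^ 2 := by
    intro z
    rw [hin, EuclideanSpace.norm_sq_eq]
    refine Finset.sum_congr rfl fun i _ => ?_
    rw [Real.norm_eq_abs, sq_abs, pow_two]
  have : Nonempty (Fin (m 1)) := ⟨⟨0, hm⟩⟩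
  have hne : (Metric.sphere (0 : EuclideanSpace ℝ (Fin (m 1))) 1).Nonempty :=
    NormedSpace.sphere_nonempty.2 zero_le_one
  obtain ⟨z, hz, hmax⟩ := (isCompact_sphere (0 : EuclideanSpace ℝ (Fin (m 1))) 1).exists_isMaxOn hne
    ((cPhi_cont W p).comp hx).continuousOn
  have hz1 : ‖z‖ = 1 := by simpa using hz
  have hmax' : ∀ w : EuclideanSpace ℝ (Fin (m 1)),
      cPhi W p (x w) ≤ (‖w‖ ^ 2) ^ (p + 1) * cPhi W p (x z) := by
    intro w
    by_cases hw : w = 0
    · subst hw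
      have : x (0 : EuclideanSpace ℝ (Fin (m 1))) = 0 := by simp [x]
      rw [this, norm_zero]
      unfold cPhi
      simp
    · have hw' : 0 < ‖w‖ := norm_pos_iff.2 hw
      have h1 : ‖w‖⁻¹ • w ∈ Metric.sphere (0 : EuclideanSpace ℝ (Fin (m 1))) 1 := by
        simp [norm_smul, hw'.ne']
      have h2 : cPhi W p (x (‖w‖⁻¹ • w)) ≤ cPhi W p (x z) := hmax h1
      have h3 : w = ‖w‖ • (‖w‖⁻¹ • w) := by
        rw [smul_smul, mul_inv_cancel₀ hw'.ne', one_smul]
      calc cPhi W p (x w) = cPhi W p (x (‖w‖ • (‖w‖⁻¹ • w))) := by rw [← h3]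
        _ = ‖w‖ ^ (2 * p + 2) * cPhi W p (x (‖w‖⁻¹ • w)) := by rw [hxsm, cPhi_smul]
        _ ≤ ‖w‖ ^ (2 * p + 2) * cPhi W p (x z) :=
          mul_le_mul_of_nonneg_left h2 (by positivity)
        _ = (‖w‖ ^ 2) ^ (p + 1) * cPhi W p (x z) := by
          rw [← pow_mul]
          ring_nf
  have hcrit : ∀ y : EuclideanSpace ℝ (Fin (m 1)),
      ⟪W.e (x z ^ (2 * p + 1)), W.e (x y)⟫_ℝ = cPhi W p (x z) * ⟪W.e (x z), W.e (x y)⟫_ℝ := by
    intro y
    have hd1 := cPhi_deriv W p hM (x z) (x y)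
    have hd2 : HasDerivAt (fun t : ℝ => (‖z + t • y‖ ^ 2) ^ (p + 1) * cPhi W p (x z))
        ((2 * (p : ℝ) + 2) * ⟪W.e (x z), W.e (x y)⟫_ℝ * cPhi W p (x z)) 0 := by
      have e1 : (fun t : ℝ => (‖z + t • y‖ ^ 2) ^ (p + 1) * cPhi W p (x z)) =
          fun t : ℝ => (⟪W.e (x z), W.e (x z)⟫_ℝ + 2 * t * ⟪W.e (x z), W.e (x y)⟫_ℝ +
            t ^ 2 * ⟪W.e (x y), W.e (x y)⟫_ℝ) ^ (p + 1) * cPhi W p (x z) := by
        funext t
        rw [← hnn, hxadd, map_add, map_smul, inner_add_add_self]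
        simp only [real_inner_smul_left, real_inner_smul_right]
        rw [real_inner_comm (W.e (x z)) (W.e (x y))]
        congr 2
        ring
      rw [e1]
      have h1 : HasDerivAt (fun t : ℝ => ⟪W.e (x z), W.e (x z)⟫_ℝ +
          2 * t * ⟪W.e (x z), W.e (x y)⟫_ℝ + t ^ 2 * ⟪W.e (x y), W.e (x y)⟫_ℝ)
          (2 * ⟪W.e (x z), W.e (x y)⟫_ℝ) 0 := by
        have a1 : HasDerivAt (fun t : ℝ => 2 * t * ⟪W.e (x z), W.e (x y)⟫_ℝ)
            (2 * 1 * ⟪W.e (x z), W.e (x y)⟫_ℝ) 0 :=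
          ((hasDerivAt_id (0 : ℝ)).const_mul 2).mul_const _
        have a2 : HasDerivAt (fun t : ℝ => t ^ 2 * ⟪W.e (x y), W.e (x y)⟫_ℝ)
            (((2 : ℕ) : ℝ) * (0 : ℝ) ^ (2 - 1) * ⟪W.e (x y), W.e (x y)⟫_ℝ) 0 :=
          (hasDerivAt_pow 2 (0 : ℝ)).mul_const _
        have a3 := (a1.const_add ⟪W.e (x z), W.e (x z)⟫_ℝ).add a2
        refine HasDerivAt.congr_deriv a3 ?_
        norm_num
      have h2 := (h1.pow (p + 1)).mul_const (cPhi W p (x z))
      refine HasDerivAt.congr_deriv h2 ?_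
      rw [hnn z, hz1]
      simp only [Nat.add_sub_cancel]
      push_cast
      ring_nf
    have hd := hd2.sub hd1
    have hmin : IsLocalMin (fun t : ℝ => (‖z + t • y‖ ^ 2) ^ (p + 1) * cPhi W p (x z) -
        cPhi W p (x z + t • x y)) 0 := by
      apply Filter.Eventually.of_forall
      intro t
      have h1 := hmax' (z + t • y)
      rw [hxadd] at h1
      have h0 : (‖z + (0 : ℝ) • y‖ ^ 2) ^ (p + 1) * cPhi W p (x z) -
          cPhi W p (x z + (0 : ℝ) • x y) = 0 := by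
        rw [zero_smul, zero_smul, add_zero, add_zero, hz1]
        simp
      show (‖z + (0 : ℝ) • y‖ ^ 2) ^ (p + 1) * cPhi W p (x z) -
          cPhi W p (x z + (0 : ℝ) • x y) ≤ _
      rw [h0]
      linarith
    have h0 := hmin.hasDerivAt_eq_zero hd
    have hp2 : (0 : ℝ) < 2 * (p : ℝ) + 2 := by positivity
    have h1 : (2 * (p : ℝ) + 2) * (⟪W.e (x z ^ (2 * p + 1)), W.e (x y)⟫_ℝ -
        cPhi W p (x z) * ⟪W.e (x z), W.e (x y)⟫_ℝ) = 0 := by linarith
    have h2 := (mul_eq_zero.1 h1).resolve_left hp2.ne'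
    linarith
  have hnrm : ‖W.e (x z)‖ = 1 := by
    have h1 := hnn z
    rw [real_inner_self_eq_norm_sq, hz1, one_pow] at h1
    have h2 : (‖W.e (x z)‖ - 1) * (‖W.e (x z)‖ + 1) = 0 := by ring_nf; linarith
    have h3 : (0 : ℝ) < ‖W.e (x z)‖ + 1 := by positivity
    have h4 := (mul_eq_zero.1 h2).resolve_right h3.ne'
    linarith
  refine ⟨x z, ⟨hnrm, ?_, ?_, ?_, ?_⟩⟩
  · have h1 : ∀ i, (ω ^ 2) • W.SX (φ 1 i) = φ 1 i := by
      intro i
      have := hF.ev 1 i
      simpa using this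
    simp only [x, map_sum, map_smul, Finset.smul_sum]
    refine Finset.sum_congr rfl fun i _ => ?_
    rw [smul_comm, h1]
  · apply hpos
    intro h
    rw [h, map_zero, norm_zero] at hnrm
    exact zero_ne_one hnrm
  · intro i
    have h1 := hcrit (EuclideanSpace.single i (1 : ℝ))
    have h2 : x (EuclideanSpace.single i (1 : ℝ)) = φ 1 i := by
      simp only [x]
      rw [Finset.sum_eq_single i]
      · simp
      · intro j _ hj
        simp [hj]
      · intro h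
        exact absurd (Finset.mem_univ i) h
    rw [h2] at h1
    exact h1
  · intro n h3 hn i
    have h0 := hm3 n h3 hn
    have h1 := i.2
    omega

end

end Pool.Agent.BER.H94
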